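import Pool.Agent.Helper53.KC.Goals2

/-! The average number of the available vertices, second form (packet KC-AV2). Adapted from
`Pool/Agent/Helper9/KC/Av.lean`. -/

set_option autoImplicit false

namespace Pool.Agent.Helper40.KC

open Finset
open Pool.Agent.Helper53.KC

variable {n : ℕ}

open Classical in
/-- the neighbours of `X` outside `D2 r x y` -/
noncomputable def BB (r : ℕ) (x y : Fin n) (X : Finset (Fin n)) : Finset (Finset (Fin n)) :=
  univ.filter fun Y => adj X Y ∧ Y ∉ D2 r x y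

lemma mem_BB {r : ℕ} {x y : Fin n} {X v : Finset (Fin n)} :
    v ∈ BB r x y X ↔ adj X v ∧ v ∉ D2 r x y := by
  classical
  unfold BB
  simp

lemma mem_D2 {r : ℕ} {x y : Fin n} {X : Finset (Fin n)} :
    X ∈ D2 r x y ↔ X.card = r ∧ ¬ (x ∈ X ↔ y ∈ X) := by
  classical
  unfold D2 V
  simp [mem_powersetCard]

lemma adj_form {X v : Finset (Fin n)} (h : adj X v) :
    ∃ e f, e ∈ X ∧ e ∉ v ∧ f ∈ v ∧ f ∉ X ∧ X = insert e (v.erase f) := by
  obtain ⟨h1, h2⟩ := h
  have hXY : (X \ v).card = 1 := by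
    have := card_sdiff_add_card_inter X v
    omega
  have hYX : (v \ X).card = 1 := by
    have := card_sdiff_add_card_inter v X
    rw [inter_comm] at this
    omega
  obtain ⟨e, he⟩ := card_eq_one.1 hXY
  obtain ⟨f, hf⟩ := card_eq_one.1 hYX
  have heX : e ∈ X \ v := by rw [he]; exact mem_singleton_self e
  have hfY : f ∈ v \ X := by rw [hf]; exact mem_singleton_self f
  rw [mem_sdiff] at heX hfY
  refine ⟨e, f, heX.1, heX.2, hfY.1, hfY.2, ?_⟩
  ext z
  simp only [mem_insert, mem_erase]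
  constructor
  · intro hz
    by_cases hzv : z ∈ v
    · right
      exact ⟨fun hzf => hfY.2 (hzf ▸ hz), hzv⟩
    · left
      have : z ∈ X \ v := mem_sdiff.2 ⟨hz, hzv⟩
      rw [he] at this
      exact mem_singleton.1 this
  · rintro (rfl | ⟨hzf, hzv⟩)
    · exact heX.1
    · by_contra hzX
      have : z ∈ v \ X := mem_sdiff.2 ⟨hzv, hzX⟩
      rw [hf] at this
      exact hzf (mem_singleton.1 this)

lemma BB_count (r : ℕ) (x y : Fin n) (v : Finset (Fin n)) :
    ((D2 r x y).filter fun X => v ∈ BB r x y X).card ≤ 2 * n := by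
  classical
  have hprod : (({x, y} : Finset (Fin n)) ×ˢ (univ : Finset (Fin n))).card ≤ 2 * n := by
    rw [card_product, card_univ, Fintype.card_fin]
    exact Nat.mul_le_mul_right _ card_le_two
  by_cases hx : x ∈ v
  · refine (card_le_card (t := (({x, y} : Finset (Fin n)) ×ˢ (univ : Finset (Fin n))).image
      fun p => insert p.2 (v.erase p.1)) ?_).trans (card_image_le.trans hprod)
    intro X hX
    obtain ⟨hXD, hXB⟩ := mem_filter.1 hX
    obtain ⟨hadj, hv⟩ := mem_BB.1 hXB
    obtain ⟨hXc, hXx⟩ := mem_D2.1 hXD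
    have hvx : x ∈ v ↔ y ∈ v := by
      by_contra h
      exact hv (mem_D2.2 ⟨hadj.1 ▸ hXc, h⟩)
    obtain ⟨e, f, heX, hev, hfv, hfX, rfl⟩ := adj_form hadj
    have hy : y ∈ v := hvx.1 hx
    rw [mem_image]
    refine ⟨(f, e), ?_, rfl⟩
    rw [mem_product]
    refine ⟨?_, mem_univ _⟩
    simp only [mem_insert, mem_singleton]
    by_contra hne
    rw [not_or] at hne
    apply hXx
    constructor
    · intro _
      exact mem_insert_of_mem (mem_erase.2 ⟨fun h => hne.2 h.symm, hy⟩)
    · intro _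
      exact mem_insert_of_mem (mem_erase.2 ⟨fun h => hne.1 h.symm, hx⟩)
  · refine (card_le_card (t := (({x, y} : Finset (Fin n)) ×ˢ (univ : Finset (Fin n))).image
      fun p => insert p.1 (v.erase p.2)) ?_).trans (card_image_le.trans hprod)
    intro X hX
    obtain ⟨hXD, hXB⟩ := mem_filter.1 hX
    obtain ⟨hadj, hv⟩ := mem_BB.1 hXB
    obtain ⟨hXc, hXx⟩ := mem_D2.1 hXD
    have hvx : x ∈ v ↔ y ∈ v := by
      by_contra h
      exact hv (mem_D2.2 ⟨hadj.1 ▸ hXc, h⟩)
    obtain ⟨e, f, heX, hev, hfv, hfX, rfl⟩ := adj_form hadj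
    have hy : y ∉ v := fun h => hx (hvx.2 h)
    rw [mem_image]
    refine ⟨(e, f), ?_, rfl⟩
    rw [mem_product]
    refine ⟨?_, mem_univ _⟩
    simp only [mem_insert, mem_singleton]
    by_contra hne
    rw [not_or] at hne
    apply hXx
    constructor
    · intro h
      rcases mem_insert.1 h with h | h
      · exact absurd h.symm hne.1
      · exact absurd (mem_of_mem_erase h) hx
    · intro h
      rcases mem_insert.1 h with h | h
      · exact absurd h.symm hne.2
      · exact absurd (mem_of_mem_erase h) hy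

/-- counting through fibres -/
lemma fib_count {α : Type} [DecidableEq α] (I : Finset (Finset α)) (B : Finset α)
    (hI : ∀ S ∈ I, S \ B ∈ I) :
    ((I.filter fun S => Disjoint S B).card : ℝ) =
      ∑ S ∈ I, ((I.filter fun S' => S' \ B = S \ B).card : ℝ)⁻¹ := by
  have hmaps : ∀ S ∈ I, S \ B ∈ I.filter fun S => Disjoint S B := fun S hS =>
    mem_filter.2 ⟨hI S hS, sdiff_disjoint⟩
  rw [← sum_fiberwise_of_maps_to hmaps, card_eq_sum_ones, Nat.cast_sum]
  apply sum_congr rfl
  intro T hT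
  obtain ⟨hTI, hTd⟩ := mem_filter.1 hT
  have hTT : T \ B = T := sdiff_eq_self_of_disjoint hTd
  have h1 : ∀ S ∈ I.filter (fun S => S \ B = T),
      ((I.filter fun S' => S' \ B = S \ B).card : ℝ)⁻¹ =
        ((I.filter fun S' => S' \ B = T).card : ℝ)⁻¹ := by
    intro S hS
    rw [(mem_filter.1 hS).2]
  rw [sum_congr rfl h1, sum_const, nsmul_eq_mul, Nat.cast_one, mul_inv_cancel₀]
  have : T ∈ I.filter fun S' => S' \ B = T := mem_filter.2 ⟨hTI, hTT⟩
  exact_mod_cast (card_pos.2 ⟨T, this⟩).ne'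

/-- the tangent line of `2^(-x)` -/
lemma tangent (x b : ℝ) : (2 : ℝ) ^ (-b) * (1 - (x - b) * Real.log 2) ≤ (2 : ℝ) ^ (-x) := by
  have h1 : (2 : ℝ) ^ (-x) = (2 : ℝ) ^ (-b) * (2 : ℝ) ^ (b - x) := by
    rw [← Real.rpow_add (by norm_num)]
    congr 1
    ring
  rw [h1]
  apply mul_le_mul_of_nonneg_left _ (by positivity)
  rw [Real.rpow_def_of_pos (by norm_num)]
  have := Real.add_one_le_exp (Real.log 2 * (b - x))
  linarith

theorem av2 (hENT : EntStmt) : Av2Stmt := by
  classical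
  intro n r x y b _ hne hb
  unfold istab at hb ⊢
  set D := D2 r x y with hD
  set I := ((V n r) \ D).powerset.filter Stb with hI
  have hIne : I.Nonempty := ⟨∅, by
    rw [hI, mem_filter]
    exact ⟨by simp, fun X hX => by simp at hX⟩⟩
  have hdown : ∀ X, ∀ S ∈ I, S \ BB r x y X ∈ I := by
    intro X S hS
    rw [hI, mem_filter, mem_powerset] at hS ⊢
    exact ⟨sdiff_subset.trans hS.1, fun Y hY Z hZ =>
      hS.2 Y (mem_sdiff.1 hY).1 Z (mem_sdiff.1 hZ).1⟩
  have hent := hENT (Finset (Fin n)) (Finset (Fin n)) I D (fun X => BB r x y X) (2 * n) hIne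
    (fun v => BB_count r x y v)
  rw [Nat.cast_mul, Nat.cast_ofNat] at hent
  -- the sum of the inverses
  have h1 : ∀ X ∈ D, ((I.filter fun S => Disjoint S (BB r x y X)).card : ℝ) =
      ∑ S ∈ I, (2 : ℝ) ^
        (-Real.logb 2 ((I.filter fun S' => S' \ BB r x y X = S \ BB r x y X).card : ℝ)) := by
    intro X _
    rw [fib_count I (BB r x y X) (hdown X)]
    apply sum_congr rfl
    intro S hS
    have hmem : S ∈ I.filter fun S' => S' \ BB r x y X = S \ BB r x y X :=
      mem_filter.2 ⟨hS, rfl⟩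
    have hpos : (0 : ℝ) < ((I.filter fun S' => S' \ BB r x y X = S \ BB r x y X).card : ℝ) := by
      exact_mod_cast card_pos.2 ⟨S, hmem⟩
    rw [Real.rpow_neg (by norm_num), Real.rpow_logb (by norm_num) (by norm_num) hpos]
  have h2 : (I.card : ℝ) * D.card * (2 : ℝ) ^ (-b) ≤
      ∑ X ∈ D, ((I.filter fun S => Disjoint S (BB r x y X)).card : ℝ) := by
    rw [sum_congr rfl h1]
    have h3 : ∑ X ∈ D, ∑ S ∈ I, (2 : ℝ) ^ (-b) * (1 - (Real.logb 2
        ((I.filter fun S' => S' \ BB r x y X = S \ BB r x y X).card : ℝ) - b) * Real.log 2) ≤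
        ∑ X ∈ D, ∑ S ∈ I, (2 : ℝ) ^
        (-Real.logb 2 ((I.filter fun S' => S' \ BB r x y X = S \ BB r x y X).card : ℝ)) :=
      sum_le_sum fun X _ => sum_le_sum fun S _ => tangent _ _
    refine le_trans ?_ h3
    have h4 : ∑ X ∈ D, ∑ S ∈ I, (2 : ℝ) ^ (-b) * (1 - (Real.logb 2
        ((I.filter fun S' => S' \ BB r x y X = S \ BB r x y X).card : ℝ) - b) * Real.log 2) =
        (2 : ℝ) ^ (-b) * (D.card * I.card * (1 + b * Real.log 2) -
          Real.log 2 * ∑ X ∈ D, ∑ S ∈ I, Real.logb 2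
            ((I.filter fun S' => S' \ BB r x y X = S \ BB r x y X).card : ℝ)) := by
      have e1 : ∀ X S : _, (2 : ℝ) ^ (-b) * (1 - (Real.logb 2
        ((I.filter fun S' => S' \ BB r x y X = S \ BB r x y X).card : ℝ) - b) * Real.log 2) =
        (2 : ℝ) ^ (-b) * (1 + b * Real.log 2) - (2 : ℝ) ^ (-b) * Real.log 2 * Real.logb 2
            ((I.filter fun S' => S' \ BB r x y X = S \ BB r x y X).card : ℝ) := by
        intro X S; ring
      simp only [e1, sum_sub_distrib, sum_const, nsmul_eq_mul, ← mul_sum]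
      ring
    rw [h4]
    have hl2 : 0 < Real.log 2 := Real.log_pos (by norm_num)
    have hIc : (0 : ℝ) ≤ I.card := Nat.cast_nonneg _
    have h5 : ∑ X ∈ D, ∑ S ∈ I, Real.logb 2
            ((I.filter fun S' => S' \ BB r x y X = S \ BB r x y X).card : ℝ) ≤
          I.card * (b * D.card) := by
      refine hent.trans ?_
      have := mul_le_mul_of_nonneg_left hb hIc
      linarith
    have h6 := mul_le_mul_of_nonneg_left h5 hl2.le
    have h7 : (I.card : ℝ) * D.card ≤ D.card * I.card * (1 + b * Real.log 2) -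
          Real.log 2 * ∑ X ∈ D, ∑ S ∈ I, Real.logb 2
            ((I.filter fun S' => S' \ BB r x y X = S \ BB r x y X).card : ℝ) := by
      linarith
    have h8 : (0 : ℝ) ≤ (2 : ℝ) ^ (-b) := by positivity
    have := mul_le_mul_of_nonneg_left h7 h8
    linarith
  refine h2.trans ?_
  -- double counting
  have e3 : ∑ X ∈ D, ((I.filter fun S => Disjoint S (BB r x y X)).card : ℝ) =
      ∑ X ∈ D, ∑ S ∈ I, if Disjoint S (BB r x y X) then (1 : ℝ) else 0 := by
    apply sum_congr rfl
    intro X _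
    rw [card_eq_sum_ones, Nat.cast_sum, sum_filter]
    simp
  have e4 : ∑ S ∈ I, ((D.filter fun X => ∀ Y ∈ S, ¬ adj X Y).card : ℝ) =
      ∑ S ∈ I, ∑ X ∈ D, if (∀ Y ∈ S, ¬ adj X Y) then (1 : ℝ) else 0 := by
    apply sum_congr rfl
    intro X _
    rw [card_eq_sum_ones, Nat.cast_sum, sum_filter]
    simp
  rw [e3, sum_comm]
  refine le_of_le_of_eq ?_ e4.symm
  apply sum_le_sum
  intro S hS
  apply sum_le_sum
  intro X hX
  by_cases hd : Disjoint S (BB r x y X)
  · rw [if_pos hd, if_pos]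
    intro Y hY hadj
    rw [hI, mem_filter, mem_powerset] at hS
    have hYV := mem_sdiff.1 (hS.1 hY)
    exact (disjoint_left.1 hd) hY (mem_BB.2 ⟨hadj, hYV.2⟩)
  · rw [if_neg hd]
    split_ifs <;> norm_num

end Pool.Agent.Helper40.KC
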